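import Pool.Agent.WAR.Exports

/-!
# Part T (topology of the moves): internal rows with complete proofs (squad WAR)

Owner: helper32.  The rows are the rows of `Pool/Agent/WAP/StmtsT.lean` with the curve
`W d : Y ^ 2 = X ^ 3 - d s X ^ 2 + d ^ 2 p X`, `s = ea F + eb F`, `p = ea F * eb F`, instead of
`Y ^ 2 = X ^ 3 - d ^ 2 X`: port the landed proof (column `descr` of table `waq` names it).
Useful lemmas are in `Pool/Agent/Helper32_WAR/Add.lean` (import `Pool.Agent.Helper32_WAR.Add`,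
namespace `Pool.Agent.WAR.H32`), same names as in WAP:
`eqn : cY P ^ 2 = cX P * (cX P - d * ea F) * (cX P - d * eb F)`, `ext_pt`, `eq_or_neg`,
`add_ne` (sum of two points with different X), `add_self` (doubling), `cX_neg`, `cY_neg`,
`kumEq` (quadratic equation of `cX (P + Q)`), `ne_zero_of_cY`.
Recall `cX 0 = cY 0 = 0`.  `GoodF.gd : Gd F`, `GoodF.two : (2 : F) ≠ 0`.
-/

namespace Pool.Agent.WAR

open Classical

variable [Par]

/-- common properties of local fields and `R` used in part T: the integers embed, the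
norm is nontrivial, numbers near 1 have square roots near 1. -/
def GoodF (F : Type) [NormedField F] : Prop :=
  (∀ a : ℤ, a ≠ 0 → am F a ≠ 0) ∧
  (∃ x : F, 0 < ‖x‖ ∧ ‖x‖ < 1) ∧
  (∀ ε : ℝ, 0 < ε → ∃ δ : ℝ, 0 < δ ∧ ∀ x : F, ‖x - 1‖ < δ → ∃ r : F, r ^ 2 = x ∧ ‖r - 1‖ < ε)

theorem GoodF.gd {F : Type} [NormedField F] (h : GoodF F) : Gd F where
  a0 := h.1 _ Par.ha
  b0 := h.1 _ Par.hb
  ab := fun hab => by
    refine h.1 (Par.a - Par.b) (sub_ne_zero.2 Par.hab) ?_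
    rw [map_sub]
    exact sub_eq_zero.2 hab

theorem GoodF.two {F : Type} [NormedField F] (h : GoodF F) : (2 : F) ≠ 0 := by
  have := h.1 2 (by norm_num)
  rwa [am_apply, Int.cast_ofNat] at this

/-- GDF (port of Helper97_WAP/GDF).  IsLoc: if `algebraMap a = 0` then `ϖ ∣ a` (lt_one), `a = ϖ * b`, `algebraMap b = 0` (uni),
so all powers of `ϖ` divide `a`, hence `a = 0` (`WfDvdMonoid`/`FiniteMultiplicity`, `ϖ` is not a
unit).  `x = algebraMap ϖ`.  Square roots: `δ = min (‖4‖) (ε * ‖2‖)`.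
IsRe: transport by `σ`; `x = 1/2`; `r = √x` (`δ ≤ 1/2`), `(r - 1) * (r + 1) = x - 1`. -/
def GdfStmt : Prop :=
  ∀ (F : Type) [NormedField F], IsLC F → GoodF F

/-- ADN (port of Helper53_WAP/ADN): sums of points near the origin are near the origin.
Proof (WAP text; now the quadratic equation is
`(v - u)^2 T^2 - 2 ((1 + d^2 p u v)(u + v) - 2 d s u v) T + (1 - d^2 p u v)^2 = 0`).  `p = 0` or `q = 0`: clear.  Otherwise let `X1 = cX p`, `X2 = cX q`, `T = cX (p + q)`, assume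
`p + q ≠ 0` and `‖T / d‖ ≤ N` (`N ≥ 0` w.l.o.g.).  Divide `kumEq` by `(X1 * X2) ^ 2`, with
`u = X1⁻¹`, `v = X2⁻¹`: `(v - u)^2 T^2 - 2 (1 - d^2 u v)(u + v) T + (1 + d^2 u v)^2 = 0`.  If
`‖u‖, ‖v‖ ≤ η` with `η` small (`‖d‖^2 η^2 ≤ 1/2`, `16 η (M^2 + M + 1) < 1/4`, `η ≤ 1`,
`M = N ‖d‖`), then `‖(1 + d^2 u v)^2‖ ≥ 1/4` but the other two terms are
`≤ 4 η^2 M^2 + 2 * 2 * 2 η M < 1/4`, contradiction.  Take `N' ≥ N` with `1 / (N' ‖d‖) ≤ η`. -/
def AdnStmt : Prop :=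
  ∀ (F : Type) [NormedField F], GoodF F → ∀ d : F, d ≠ 0 → ∀ N : ℝ,
    ∃ N' : ℝ, ∀ p q : Pt d, Big N' p → Big N' q → Big N (p + q)

/-- SMN (port of Helper19_WAP/SMN): multiples of points near the origin are near the origin.
`sm a P = a • P`; induction on natural numbers with `AdnStmt`, `cX (-P) = cX P`. -/
def SmnStmt : Prop :=
  ∀ (F : Type) [NormedField F], GoodF F → ∀ d : F, d ≠ 0 →
  ∀ (a : ℤ) (N : ℝ), ∃ N' : ℝ, ∀ p : Pt d, Big N' p → Big N (sm a p)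

/-- TRX (helper32): translation of `P0` by a point near the origin.
Proof (WAP).  `p = 0` trivial.  Let `P0 = (X0, Y0)`, `p = (X, Y)`, `‖X‖ > ‖X0‖` (so `X ≠ X0`), `u = 1/X`,
`s = Y / X^2`; `s^2 = u - d^2 u^3`, so `u, s` are small if `‖X‖` is large.  From `add_ne` (for
`p + P0`, commutativity)
`cX (P0+p) - X0 = ((3 X0^2 - d^2) X - d^2 X0 - X0^3 - 2 Y Y0) / (X - X0)^2`
`  = (A u + B u^2 - 2 Y0 s) / (1 - X0 u)^2`, `A = 3 X0^2 - d^2`, `B = -d^2 X0 - X0^3`, and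
`cY (P0+p) + Y0 = -((Y - Y0)/(X - X0)) (cX (P0+p) - X0)`
`  = -[(s - Y0 u^2)(A + B u) - 2 Y0 (1 - d^2 u^2) + 2 Y0^2 s u] / (1 - X0 u)^3 → 2 Y0`.
Use continuity of these two explicit functions of `(u, s)` at `(0, 0)`. -/
def TrxStmt : Prop :=
  ∀ (F : Type) [NormedField F], GoodF F → ∀ d : F, d ≠ 0 →
  ∀ P0 : Pt d, P0 ≠ 0 → ∀ ε : ℝ, 0 < ε → ∃ N : ℝ, ∀ p : Pt d, Big N p →
    P0 + p ≠ 0 ∧ ‖cX (P0 + p) - cX P0‖ < ε ∧ ‖cY (P0 + p) - cY P0‖ < ε

/-- DIF (port of Helper61_WAP/DIF): converse of TRX.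
Proof.  `P0 = (X0, Y0)`, `P = (X, Y)`, `Y0 ≠ 0`, `-P0 = (X0, -Y0)`.  If `X = X0`, then `Y = Y0` or
`Y = -Y0` (`eq_or_neg`), the second is impossible for `‖Y - Y0‖ < ‖2 Y0‖`, so `P - P0 = 0`.
Otherwise `cX (P - P0) = ((Y + Y0)/(X - X0))^2 + d s - X - X0` (`add_ne` for `P + -P0`), with
`‖Y + Y0‖ ≥ ‖2 Y0‖ / 2`, `‖X - X0‖ < ε`, `‖X + X0‖ ≤ 2 ‖X0‖ + 1`: large for `ε` small. -/
def DifStmt : Prop :=
  ∀ (F : Type) [NormedField F], GoodF F → ∀ d : F, d ≠ 0 →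
  ∀ P0 : Pt d, cY P0 ≠ 0 → ∀ N : ℝ, ∃ ε : ℝ, 0 < ε ∧ ∀ P : Pt d, P ≠ 0 →
    ‖cX P - cX P0‖ < ε → ‖cY P - cY P0‖ < ε → Big N (P - P0)

/-- LOC (port of Helper61_WAP/LOC): local coordinates.
Proof.  `z0 = kum d P0 Q0 = (x0, t0, y0)`.  For `z1 = (x, t, y)` on `U` near `z0` put
`X = d x`, `Y = cY P0 * r` with `r^2 = d^3 cub x / (cY P0)^2` near 1 (`(cY P0)^2 = d^3 cub x0`),
so `(X, Y)` is a point `P` of `W d` near `P0`; `Q = (d t, d^3 y / Y)`, on `W d` since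
`y^2 = cub x * cub t`, near `Q0` since `cY Q0 = d^3 y0 / cY P0`.  Put `p = P - P0`, `q = Q - Q0` and
use `DifStmt`.  `O` = the open set where all these (continuous) inequalities hold. -/
def LocStmt : Prop :=
  ∀ (F : Type) [NormedField F], GoodF F → ∀ d : F, d ≠ 0 →
  ∀ P0 Q0 : Pt d, OnU (kum d P0 Q0) → ∀ N : ℝ,
    ∃ O : Set (F × F × F), IsOpen O ∧ kum d P0 Q0 ∈ O ∧ ∀ z1 ∈ O, OnU z1 →
      ∃ p q : Pt d, Big N p ∧ Big N q ∧ z1 = kum d (P0 + p) (Q0 + q)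

/-- KUC (port of Helper5_WAP/KUC): continuity of `kum` in local coordinates (from `TrxStmt`; `OnU (kum d P Q)` iff `cY P ≠ 0`
and `cY Q ≠ 0`, and these are open conditions). -/
def KucStmt : Prop :=
  ∀ (F : Type) [NormedField F], GoodF F → ∀ d : F, d ≠ 0 →
  ∀ P0 Q0 : Pt d, OnU (kum d P0 Q0) → ∀ V : Set (F × F × F), IsOpen V → kum d P0 Q0 ∈ V →
    ∃ N : ℝ, ∀ p q : Pt d, Big N p → Big N q →
      kum d (P0 + p) (Q0 + q) ∈ V ∧ OnU (kum d (P0 + p) (Q0 + q))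

/-- ZAD (helper32): the parameter `z = X / Y` is almost additive near the origin. -/
def ZadStmt : Prop :=
  ∀ (F : Type) [NormedField F], GoodF F → ∀ d : F, d ≠ 0 →
  ∀ ε : ℝ, 0 < ε → ∃ N : ℝ, ∀ p q : Pt d, Big N p → Big N q →
    ‖cz (p + q) - cz p - cz q‖ ≤ ε * max ‖cz p‖ ‖cz q‖

/-- ZSM (port of Helper91_WAP/ZSM): `z (a p) ≈ a z(p)` near the origin.  Induction from
`ZadStmt`, `SmnStmt` (`cz (-p) = - cz p`), no complex multiplication. -/
def ZsmStmt : Prop :=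
  ∀ (F : Type) [NormedField F], GoodF F → ∀ d : F, d ≠ 0 →
  ∀ (a : ℤ) (ε : ℝ), 0 < ε → ∃ N : ℝ, ∀ p : Pt d, Big N p →
    ‖cz (sm a p) - am F a * cz p‖ ≤ ε * ‖cz p‖

/-- INJ (port of Helper35_WAP/INJ): multiplication by `a ≠ 0` is injective near the origin.
Proof.  `sm a (p - q) = 0`, `p - q` is near the origin (`AdnStmt`), `cz 0 = 0`, so
`‖a‖ ‖cz (p - q)‖ ≤ (‖a‖ / 2) ‖cz (p - q)‖` by `ZsmStmt`, `cz (p - q) = 0`, hence `p - q = 0`
(for `p - q ≠ 0` near the origin `X ≠ 0` and `Y ≠ 0`). -/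
def InjStmt : Prop :=
  ∀ (F : Type) [NormedField F], GoodF F → ∀ d : F, d ≠ 0 →
  ∀ a : ℤ, a ≠ 0 → ∃ N : ℝ, ∀ p q : Pt d, Big N p → Big N q → sm a p = sm a q → p = q

/-- INF (port of Helper24_WAP/INF): there are infinitely many points near the origin.
Proof.  For `z ≠ 0` small let `s'` be a square root of `(1 + d s z^2)^2 - 4 d^2 p z^4` near 1,
`X = (1 + d s z^2 + s')/(2 z^2)`, `Y = X / z`: `X^2 - (d s + z^(-2)) X + d^2 p = 0`, so `(X, Y)` is a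
point with `cz = z` and `‖X‖` large.  The map `z ↦` point is injective and there are infinitely
many small `z` (powers of `x`, `0 < ‖x‖ < 1`). -/
def InfStmt : Prop :=
  ∀ (F : Type) [NormedField F], GoodF F → ∀ d : F, d ≠ 0 →
  ∀ N : ℝ, {p : Pt d | Big N p}.Infinite

/-- CNA (helper32): continuity of the letters `act`.
Proof.  `d = cub z.1`, `P0 = frP z`, `Q0 = frQ z`, `kum d P0 Q0 = z` (`FreStmt`);
`z' = kum d P1 Q1`, `P1 = aP0 + bQ0`, `Q1 = cP0 + eQ0` (`FraStmt`).  `KucStmt` at `(P1, Q1)` gives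
`N1` for `V`; `AdnStmt`, `SmnStmt` give `N` such that `p, q ∈ Big N` implies
`ap + bq, cp + eq ∈ Big N1`; `LocStmt` at `(P0, Q0)` gives `O`.  For `z1 ∈ O` on `U`,
`z1 = kum d (P0+p) (Q0+q)` and `actf a b c e z1 = kum d (P1 + (ap+bq)) (Q1 + (cp+eq))` by `FraStmt`
(additivity of `sm`). -/
def CnaStmt : Prop :=
  ∀ (F : Type) [NormedField F], IsLC F →
  ∀ (a b c e : ℤ) (z z' : F × F × F), Step (.act a b c e) z z' →
    ∀ V : Set (F × F × F), IsOpen V → z' ∈ V →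
    ∃ O : Set (F × F × F), IsOpen O ∧ z ∈ O ∧ ∀ z1 ∈ O, OnU z1 →
      ∃ z2 ∈ V, Step (.act a b c e) z1 z2

/-- CNS (port of Helper60_WAP/CNS): continuity of the letters `sw, t0, tp, tm` (explicit rational
maps; `OnU z` gives `z.2.1 ∉ {0, ea F, eb F}`; the image is on `U` by a field identity). -/
def CnsStmt : Prop :=
  ∀ (F : Type) [NormedField F], IsLC F →
  ∀ (l : Letter) (z z' : F × F × F), (l = .sw ∨ l = .t0 ∨ l = .tp ∨ l = .tm) → Step l z z' →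
    ∀ V : Set (F × F × F), IsOpen V → z' ∈ V →
    ∃ O : Set (F × F × F), IsOpen O ∧ z ∈ O ∧ ∀ z1 ∈ O, OnU z1 → ∃ z2 ∈ V, Step l z1 z2

/-- CNJ (helper90, part J): continuity of the letter `jj`. -/
def CnjStmt : Prop :=
  ∀ (F : Type) [NormedField F], IsLC F →
  ∀ (l : Letter) (z z' : F × F × F), l = .jj → Step l z z' →
    ∀ V : Set (F × F × F), IsOpen V → z' ∈ V →
    ∃ O : Set (F × F × F), IsOpen O ∧ z ∈ O ∧ ∀ z1 ∈ O, OnU z1 → ∃ z2 ∈ V, Step l z1 z2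

/-- DNA (port of Helper91_WAP/DNA): density for the letters `act`.
Proof.  `z ∈ V` on `U`, `d, P0, Q0` as in CNA; `KucStmt` gives `N` with
`kum d (P0+p) (Q0+q) ∈ V` on `U` for `p, q ∈ Big N`; enlarge `N` such that multiplication by those of
`a, b, c, e` which are nonzero is injective on `Big N` (`InjStmt`).  Let `T = {R | cY R = 0}` (at most
4 points: the origin and `(0,0), (d a,0), (d b,0)`; only finiteness is used).  Choose `q ∈ Big N`
(`InfStmt`) with: if `b ≠ 0`, `P1 + b q ∉ T`; if `e ≠ 0`, `Q1 + e q ∉ T` (finitely many forbidden `q`,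
by injectivity), then `p ∈ Big N` with: if `a ≠ 0`, `P1 + b q + a p ∉ T`; if `c ≠ 0`,
`Q1 + e q + c p ∉ T`.  If `a = 0` then `b ≠ 0` and the first coordinate is fine by the choice of
`q`; if `c = 0` then `e ≠ 0`, likewise.  So both new points have `cY ≠ 0`, the image
`kum d (..) (..)` is on `U`. -/
def DnaStmt : Prop :=
  ∀ (F : Type) [NormedField F], IsLC F →
  ∀ a b c e : ℤ, a * e - b * c = 1 → ∀ V : Set (F × F × F), IsOpen V →
    (∃ z ∈ V, OnU z) → ∃ z ∈ V, ∃ z', Step (.act a b c e) z z'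

/-- DNS (port of Helper54_WAP/DNS): density for `sw, t0, tp, tm`: every point of `U` is in the domain. -/
def DnsStmt : Prop :=
  ∀ (F : Type) [NormedField F] [Gd F], (2 : F) ≠ 0 →
  ∀ l : Letter, (l = .sw ∨ l = .t0 ∨ l = .tp ∨ l = .tm) → ∀ z : F × F × F, OnU z →
    ∃ z', Step l z z'

/-- DNJ (helper90, part J): density for `jj`. -/
def DnjStmt : Prop :=
  ∀ (F : Type) [NormedField F], IsLC F →
  ∀ l : Letter, l = .jj → ∀ V : Set (F × F × F), IsOpen V → (∃ z ∈ V, OnU z) →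
    ∃ z ∈ V, ∃ z', Step l z z'

/-- RGO (port of Helper67_WAP/RG1; statement `RgoStmt` in Exports).  `mz` is continuous at points
of `U` (`x ≠ 0`, `(t - a)(t - b) ≠ 0`), and `{m | ‖m‖ ≤ 1}` is open by the ultrametric inequality. -/
def Rg1Stmt : Prop := RgoStmt

end Pool.Agent.WAR
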