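import Mathlib

/-!
# WAR: the curves Y^2 = X (X - d a) (X - d b)

MP_ff4683_nt, second hand-in.  `f x = x * (x - a) * (x - b)` with integers `a`, `b` (class `Par`).
The twist `d * y ^ 2 = f x` has the Weierstrass form
`W d : Y ^ 2 = X * (X - d * a) * (X - d * b)`, `X = d * x`, `Y = d ^ 2 * y`.
-/

namespace Pool.Agent.WAR

open WeierstrassCurve WeierstrassCurve.Affine

/-- the parameters of `f x = x * (x - a) * (x - b)` -/
class Par where
  a : ℤ
  b : ℤ
  ha : a ≠ 0
  hb : b ≠ 0
  hab : a ≠ b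

section par

variable [Par]

/-- the root `a` in a ring -/
def ea (A : Type*) [CommRing A] : A := ((Par.a : ℤ) : A)

/-- the root `b` in a ring -/
def eb (A : Type*) [CommRing A] : A := ((Par.b : ℤ) : A)

@[simp] theorem map_ea {A B : Type*} [CommRing A] [CommRing B] (σ : A →+* B) :
    σ (ea A) = ea B := map_intCast σ _

@[simp] theorem map_eb {A B : Type*} [CommRing A] [CommRing B] (σ : A →+* B) :
    σ (eb A) = eb B := map_intCast σ _

@[simp] theorem map_ea' {A B S : Type*} [CommRing A] [CommRing B] [FunLike S A B]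
    [RingHomClass S A B] (σ : S) : σ (ea A) = ea B := map_intCast σ _

@[simp] theorem map_eb' {A B S : Type*} [CommRing A] [CommRing B] [FunLike S A B]
    [RingHomClass S A B] (σ : S) : σ (eb A) = eb B := map_intCast σ _

theorem ea_int : ea ℤ = Par.a := by simp [ea]
theorem eb_int : eb ℤ = Par.b := by simp [eb]

theorem cast_ea (A : Type*) [CommRing A] : ((ea ℤ : ℤ) : A) = ea A := by simp [ea]
theorem cast_eb (A : Type*) [CommRing A] : ((eb ℤ : ℤ) : A) = eb A := by simp [eb]

/-- the three roots `0`, `a`, `b` are different in `A` -/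
class Gd (A : Type*) [CommRing A] : Prop where
  a0 : ea A ≠ 0
  b0 : eb A ≠ 0
  ab : ea A ≠ eb A

instance instGd (A : Type*) [CommRing A] [CharZero A] : Gd A where
  a0 := by
    unfold ea
    exact Int.cast_ne_zero.2 Par.ha
  b0 := by
    unfold eb
    exact Int.cast_ne_zero.2 Par.hb
  ab := by
    unfold ea eb
    exact fun h => Par.hab (Int.cast_injective h)

theorem ea_ne (A : Type*) [CommRing A] [Gd A] : ea A ≠ 0 := Gd.a0
theorem eb_ne (A : Type*) [CommRing A] [Gd A] : eb A ≠ 0 := Gd.b0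
theorem ea_ne_eb (A : Type*) [CommRing A] [Gd A] : ea A ≠ eb A := Gd.ab
theorem eab_ne (A : Type*) [CommRing A] [Gd A] : ea A - eb A ≠ 0 := sub_ne_zero.2 Gd.ab
theorem eba_ne (A : Type*) [CommRing A] [Gd A] : eb A - ea A ≠ 0 := sub_ne_zero.2 Gd.ab.symm

end par

section Curve

variable [Par] {F : Type} [Field F]

/-- the curve `Y ^ 2 = X * (X - d * a) * (X - d * b)` -/
def W (d : F) : WeierstrassCurve.Affine F :=
  ⟨0, -(d * (ea F + eb F)), 0, d ^ 2 * (ea F * eb F), 0⟩

theorem W_equation (d X Y : F) : (W d).Equation X Y ↔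
    Y ^ 2 = X * (X - d * ea F) * (X - d * eb F) := by
  rw [Affine.equation_iff]
  simp only [W]
  constructor <;> intro h <;> linear_combination h

theorem W_nonsing_iff (d X Y : F) : (W d).Nonsingular X Y ↔
    Y ^ 2 = X * (X - d * ea F) * (X - d * eb F) ∧
      (3 * X ^ 2 - 2 * d * (ea F + eb F) * X + d ^ 2 * (ea F * eb F) ≠ 0 ∨ 2 * Y ≠ 0) := by
  rw [Affine.nonsingular_iff, W_equation]
  simp only [W]
  constructor
  · rintro ⟨h, h1 | h1⟩
    · refine ⟨h, Or.inl ?_⟩
      intro h2; apply h1; linear_combination (-1) * h2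
    · refine ⟨h, Or.inr ?_⟩
      intro h2; apply h1; linear_combination h2
  · rintro ⟨h, h1 | h1⟩
    · refine ⟨h, Or.inl ?_⟩
      intro h2; apply h1; linear_combination (-1) * h2
    · refine ⟨h, Or.inr ?_⟩
      intro h2; apply h1; linear_combination h2

theorem W_nonsingular [Gd F] (d X Y : F) (h2 : (2 : F) ≠ 0) (hd : d ≠ 0) :
    (W d).Nonsingular X Y ↔ Y ^ 2 = X * (X - d * ea F) * (X - d * eb F) := by
  rw [W_nonsing_iff]
  refine ⟨fun h => h.1, fun h => ⟨h, ?_⟩⟩
  by_contra hcon
  push Not at hcon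
  obtain ⟨h1, h3⟩ := hcon
  have hY : Y = 0 := by
    rcases mul_eq_zero.mp h3 with h | h
    · exact absurd h h2
    · exact h
  have ha := ea_ne F
  have hb := eb_ne F
  have hab := eab_ne F
  have h5 : X * (X - d * ea F) * (X - d * eb F) = 0 := by
    rw [hY] at h
    linear_combination -h
  rcases mul_eq_zero.mp h5 with h | h
  · rcases mul_eq_zero.mp h with h | h
    · rw [h] at h1
      have h6 : d ^ 2 * (ea F * eb F) = 0 := by linear_combination h1
      exact (mul_ne_zero (pow_ne_zero 2 hd) (mul_ne_zero ha hb)) h6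
    · have hX : X = d * ea F := by linear_combination h
      rw [hX] at h1
      have h6 : d ^ 2 * (ea F * (ea F - eb F)) = 0 := by linear_combination h1
      exact (mul_ne_zero (pow_ne_zero 2 hd) (mul_ne_zero ha hab)) h6
  · have hX : X = d * eb F := by linear_combination h
    rw [hX] at h1
    have h6 : d ^ 2 * (eb F * (ea F - eb F)) = 0 := by linear_combination (-1) * h1
    exact (mul_ne_zero (pow_ne_zero 2 hd) (mul_ne_zero hb hab)) h6

theorem W_negY (d X Y : F) : (W d).negY X Y = -Y := by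
  simp [Affine.negY, W]

/-- the point `(X, Y)` as a proposition -/
def Is {d : F} (P : (W d).Point) (X Y : F) : Prop := ∃ h, P = Point.some X Y h

/-- the X-coordinate (0 for the point at infinity) -/
def cX {d : F} : (W d).Point → F
  | Point.zero => 0
  | Point.some X _ _ => X

/-- the Y-coordinate (0 for the point at infinity) -/
def cY {d : F} : (W d).Point → F
  | Point.zero => 0
  | Point.some _ Y _ => Y

/-- the formal parameter `X / Y` -/
def cz {d : F} (P : (W d).Point) : F := cX P / cY P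

theorem W_addX (d x1 x2 l : F) :
    (W d).addX x1 x2 l = l ^ 2 + d * (ea F + eb F) - x1 - x2 := by
  simp only [Affine.addX, W]
  ring

theorem W_addY (d x1 x2 y1 l : F) :
    (W d).addY x1 x2 y1 l =
      -(l * (l ^ 2 + d * (ea F + eb F) - x1 - x2 - x1) + y1) := by
  simp only [Affine.addY, Affine.negAddY, W_negY, W_addX]

end Curve

section Transfer

variable [Par] {F L : Type} [Field F] [Field L]

theorem Trf_aux {d : F} {d' : L} (σ : F →+* L) (c : L) (hc : c ≠ 0) (h : d' = c ^ 2 * σ d)
    {X Y : F} (hn : (W d).Nonsingular X Y) :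
    (W d').Nonsingular (c ^ 2 * σ X) (c ^ 3 * σ Y) := by
  rw [W_nonsing_iff] at hn ⊢
  obtain ⟨h1, h2⟩ := hn
  have h1' : σ Y ^ 2 = σ X * (σ X - σ d * ea L) * (σ X - σ d * eb L) := by
    rw [← map_pow, h1]; simp
  refine ⟨by rw [h]; linear_combination c ^ 6 * h1', ?_⟩
  rcases h2 with h2 | h2
  · left
    intro h3
    apply h2
    have h4 : c ^ 4 * (3 * σ X ^ 2 - 2 * σ d * (ea L + eb L) * σ X
        + σ d ^ 2 * (ea L * eb L)) = 0 := by
      rw [h] at h3
      linear_combination h3
    rcases mul_eq_zero.mp h4 with h5 | h5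
    · exact absurd h5 (pow_ne_zero _ hc)
    · apply σ.injective
      simp only [map_mul, map_pow, map_add, map_sub, map_zero, map_ofNat, map_ea, map_eb]
      linear_combination h5
  · right
    intro h3
    apply h2
    have h4 : c ^ 3 * (2 * σ Y) = 0 := by linear_combination h3
    rcases mul_eq_zero.mp h4 with h5 | h5
    · exact absurd h5 (pow_ne_zero _ hc)
    · apply σ.injective
      simp only [map_mul, map_zero, map_ofNat]
      exact h5

/-- transfer of points: `(X, Y) ↦ (c ^ 2 * σ X, c ^ 3 * σ Y)` (base change and scaling) -/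
def Trf {d : F} {d' : L} (σ : F →+* L) (c : L) (hc : c ≠ 0) (h : d' = c ^ 2 * σ d) :
    (W d).Point → (W d').Point
  | Point.zero => Point.zero
  | Point.some _ _ hn => Point.some _ _ (Trf_aux σ c hc h hn)

variable [DecidableEq F] [DecidableEq L]

theorem slope_Trf {d : F} {d' : L} (σ : F →+* L) (c : L) (hc : c ≠ 0) (h : d' = c ^ 2 * σ d)
    (x1 x2 y1 y2 : F) :
    (W d').slope (c ^ 2 * σ x1) (c ^ 2 * σ x2) (c ^ 3 * σ y1) (c ^ 3 * σ y2) =
      c * σ ((W d).slope x1 x2 y1 y2) := by
  by_cases hx : x1 = x2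
  · subst hx
    by_cases hy : y1 = -y2
    · rw [Affine.slope_of_Y_eq rfl (by rw [W_negY, hy, map_neg]; ring),
        Affine.slope_of_Y_eq rfl (by rw [W_negY, hy]), map_zero, mul_zero]
    · rw [Affine.slope_of_Y_ne rfl (by
        rw [W_negY]
        intro h1
        apply hy
        apply σ.injective
        apply mul_left_cancel₀ (pow_ne_zero 3 hc)
        rw [h1, map_neg]; ring), Affine.slope_of_Y_ne rfl (by rw [W_negY]; exact hy)]
      simp only [W, Affine.negY]
      rw [h]
      simp only [map_div₀, map_mul, map_pow, map_add, map_neg, map_sub, map_zero, map_ofNat,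
        map_ea, map_eb]
      have h1 : c ^ 3 * σ y1 - (-(c ^ 3 * σ y1) - 0 * (c ^ 2 * σ x1) - 0) =
        c ^ 3 * (σ y1 - (-σ y1 - 0 * σ x1 - 0)) := by ring
      rw [h1, ← mul_div_assoc, div_mul_eq_div_div]
      congr 1
      rw [div_eq_iff (pow_ne_zero 3 hc)]
      ring
  · rw [Affine.slope_of_X_ne (by
      intro h1
      apply hx
      apply σ.injective
      exact mul_left_cancel₀ (pow_ne_zero 2 hc) h1), Affine.slope_of_X_ne hx, map_div₀, map_sub, map_sub,
      ← mul_sub, ← mul_sub, ← mul_div_assoc, div_mul_eq_div_div]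
    congr 1
    rw [div_eq_iff (pow_ne_zero 2 hc)]
    ring

theorem Trf_add {d : F} {d' : L} (σ : F →+* L) (c : L) (hc : c ≠ 0) (h : d' = c ^ 2 * σ d)
    (P Q : (W d).Point) : Trf σ c hc h (P + Q) = Trf σ c hc h P + Trf σ c hc h Q := by
  rcases P with _ | ⟨x1, y1, h1⟩
  · rfl
  rcases Q with _ | ⟨x2, y2, h2⟩
  · rfl
  by_cases hxy : x1 = x2 ∧ y1 = (W d).negY x2 y2
  · rw [Affine.Point.add_of_Y_eq hxy.1 hxy.2]
    simp only [Trf]
    rw [Affine.Point.add_of_Y_eq (by rw [hxy.1]) (by rw [hxy.2, W_negY, W_negY, map_neg]; ring)]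
    rfl
  · rw [Affine.Point.add_some hxy]
    have hxy' : ¬ (c ^ 2 * σ x1 = c ^ 2 * σ x2 ∧
        c ^ 3 * σ y1 = (W d').negY (c ^ 2 * σ x2) (c ^ 3 * σ y2)) := by
      rintro ⟨h3, h4⟩
      apply hxy
      refine ⟨σ.injective (mul_left_cancel₀ (pow_ne_zero 2 hc) h3), ?_⟩
      rw [W_negY] at h4 ⊢
      apply σ.injective
      apply mul_left_cancel₀ (pow_ne_zero 3 hc)
      rw [h4, map_neg]; ring
    simp only [Trf]
    rw [Affine.Point.add_some hxy']
    congr 1
    · rw [slope_Trf σ c hc h, W_addX, W_addX]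
      simp only [map_sub, map_pow, map_add, map_mul, map_ea, map_eb]
      rw [h]
      ring
    · rw [slope_Trf σ c hc h, W_addY, W_addY]
      simp only [map_sub, map_pow, map_neg, map_add, map_mul, map_ea, map_eb]
      rw [h]
      ring

/-- the transfer as a homomorphism -/
def Tr {d : F} {d' : L} (σ : F →+* L) (c : L) (hc : c ≠ 0) (h : d' = c ^ 2 * σ d) :
    (W d).Point →+ (W d').Point where
  toFun := Trf σ c hc h
  map_zero' := rfl
  map_add' := Trf_add σ c hc h

/-- base change of points -/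
def Bc (σ : F →+* L) (d : F) : (W d).Point →+ (W (σ d)).Point :=
  Tr σ 1 one_ne_zero (by ring)

omit [DecidableEq F] [DecidableEq L] in
theorem Trf_injective {d : F} {d' : L} (σ : F →+* L) (c : L) (hc : c ≠ 0)
    (h : d' = c ^ 2 * σ d) : Function.Injective (Trf (d := d) (d' := d') σ c hc h) := by
  intro P Q hPQ
  rcases P with _ | ⟨x1, y1, h1⟩
  · rcases Q with _ | ⟨x2, y2, h2⟩
    · rfl
    · simp [Trf] at hPQ
  · rcases Q with _ | ⟨x2, y2, h2⟩
    · simp [Trf] at hPQ
    · simp only [Trf, Point.some.injEq] at hPQ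
      have e1 := σ.injective (mul_left_cancel₀ (pow_ne_zero 2 hc) hPQ.1)
      have e2 := σ.injective (mul_left_cancel₀ (pow_ne_zero 3 hc) hPQ.2)
      subst e1 e2
      rfl

end Transfer

end Pool.Agent.WAR
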