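import Mathlib

/-!
# The Kummer surfaces `Kum(E × E)`, `E : Y ^ 2 = X (X - a) (X - b)`, as smooth projective K3 surfaces

`a`, `b` are integers.  `F4 a b (x0, x1) = x0 * x1 * (x0 - a * x1) * (x0 - b * x1)` is the binary
quartic form with the roots `0, a, b, ∞` (so `F4 a b (s, 1) = s * (s - a) * (s - b)`).

**The surface.**  Let `P` be the `P ^ 1`-bundle over `P ^ 1 × P ^ 1` with the homogeneous coordinates
`([x0 : x1], [t0 : t1], [u : v])`, that is the quotient of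
`(A ^ 2 - 0) × (A ^ 2 - 0) × (A ^ 2 - 0)` by the torus `G_m ^ 3` acting by
`(l, m, n) : (x0, x1) ↦ (l x0, l x1)`, `(t0, t1) ↦ (m t0, m t1)`, `(u, v) ↦ (n l ^ 2 u, n m ^ 2 v)`.
The surface `X` is the zero locus in `P` of the (well defined) equation
`u ^ 2 * F4(t0, t1) = v ^ 2 * F4(x0, x1)`.

**`X` is a smooth projective K3 surface** over every field in which `2`, `a`, `b`, `a - b` are not
`0`.  `P` is a smooth projective threefold.  Charts: one of `x0, x1`, one of `t0, t1` and one of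
`u, v` is `1`; with `v = 1` the equation is `u ^ 2 g(t) = h(x)` with `g, h` polynomials in one
variable with simple roots (dehomogenizations of `F4`), and it is symmetric for `u = 1`.  At a
singular point the derivative `h'(x)` vanishes, so `h(x) ≠ 0`, so `u ≠ 0` and `g(t) ≠ 0`, and the
derivative `2 u g(t)` with respect to `u` is nonzero; so `X` is smooth.
The divisor of `u` (resp. `v`) has class `ξ + (2, 0)` (resp. `ξ + (0, 2)`), so the anticanonical class
of `P` is `2 ξ + (4, 4)`, the class of `X`; hence `ω_X` is trivial and, as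
`H ^ 1(P, O) = H ^ 2(P, O) = 0`, `X` is geometrically connected and `H ^ 1(X, O) = 0`.

**Birational model.**  `(x, t, y) ↦ ([x : 1], [t : 1], [y : t (t - a) (t - b)])` identifies the
affine surface `y ^ 2 = x (x - a) (x - b) * t (t - a) (t - b)`, `y ≠ 0`, with the open subset
`F4(x) ≠ 0, F4(t) ≠ 0` of `X`; `X` is the minimal desingularization of the double cover of
`P ^ 1 × P ^ 1` given by this equation (`u / v = y / (t (t - a) (t - b))` resolves its 16 nodes),
i.e. the Kummer surface of `E × E` with `E : Y ^ 2 = X (X - a) (X - b)`.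

**Points.**  `XP a b F` is the set `X(F)` (every `F`-point of `P` has homogeneous coordinates in `F`,
unique up to the torus), with its usual topology when `F` is a topological field: the quotient
topology of the subspace topology of the space `XC a b F` of homogeneous coordinates.
-/

namespace Pool.Agent.WAR

/-- the binary quartic form with the roots `0, a, b, ∞` -/
def F4 (a b : ℤ) {F : Type} [Field F] (p : F × F) : F :=
  p.1 * p.2 * (p.1 - (a : F) * p.2) * (p.1 - (b : F) * p.2)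

/-- The homogeneous coordinates `((x0, x1), (t0, t1), (u, v))` of the points of the surface:
each of the three pairs is nonzero and `u ^ 2 * F4(t0, t1) = v ^ 2 * F4(x0, x1)`. -/
def XC (a b : ℤ) (F : Type) [Field F] : Set ((F × F) × (F × F) × (F × F)) :=
  {p | p.1 ≠ 0 ∧ p.2.1 ≠ 0 ∧ p.2.2 ≠ 0 ∧
    p.2.2.1 ^ 2 * F4 a b p.2.1 = p.2.2.2 ^ 2 * F4 a b p.1}

/-- Two sets of homogeneous coordinates of the same point: they differ by the action of
`(l, m, n)` in `(Fˣ) ^ 3`. -/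
def XCRel (a b : ℤ) {F : Type} [Field F] (p q : XC a b F) : Prop :=
  ∃ l m n : F, l ≠ 0 ∧ m ≠ 0 ∧ n ≠ 0 ∧
    q.1.1 = (l * p.1.1.1, l * p.1.1.2) ∧ q.1.2.1 = (m * p.1.2.1.1, m * p.1.2.1.2) ∧
    q.1.2.2 = (n * l ^ 2 * p.1.2.2.1, n * m ^ 2 * p.1.2.2.2)

theorem XCRel.equiv (a b : ℤ) {F : Type} [Field F] : Equivalence (XCRel a b (F := F)) where
  refl p := ⟨1, 1, 1, one_ne_zero, one_ne_zero, one_ne_zero, by simp, by simp, by simp⟩
  symm := by
    rintro ⟨⟨⟨x0, x1⟩, ⟨t0, t1⟩, ⟨u, v⟩⟩, hp⟩ ⟨⟨⟨x0', x1'⟩, ⟨t0', t1'⟩, ⟨u', v'⟩⟩, hq⟩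
      ⟨l, m, n, hl, hm, hn, h1, h2, h3⟩
    simp only [Prod.mk.injEq] at h1 h2 h3
    obtain ⟨rfl, rfl⟩ := h1
    obtain ⟨rfl, rfl⟩ := h2
    obtain ⟨rfl, rfl⟩ := h3
    refine ⟨l⁻¹, m⁻¹, n⁻¹, inv_ne_zero hl, inv_ne_zero hm, inv_ne_zero hn, ?_, ?_, ?_⟩
    · simp only [Prod.mk.injEq]
      constructor <;> field_simp
    · simp only [Prod.mk.injEq]
      constructor <;> field_simp
    · simp only [Prod.mk.injEq]
      constructor <;> field_simp
  trans := by
    rintro ⟨⟨⟨x0, x1⟩, ⟨t0, t1⟩, ⟨u, v⟩⟩, hp⟩ ⟨⟨⟨x0', x1'⟩, ⟨t0', t1'⟩, ⟨u', v'⟩⟩, hq⟩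
      ⟨⟨⟨x0'', x1''⟩, ⟨t0'', t1''⟩, ⟨u'', v''⟩⟩, hr⟩
      ⟨l, m, n, hl, hm, hn, h1, h2, h3⟩ ⟨l', m', n', hl', hm', hn', h1', h2', h3'⟩
    simp only [Prod.mk.injEq] at h1 h2 h3 h1' h2' h3'
    obtain ⟨rfl, rfl⟩ := h1
    obtain ⟨rfl, rfl⟩ := h2
    obtain ⟨rfl, rfl⟩ := h3
    obtain ⟨rfl, rfl⟩ := h1'
    obtain ⟨rfl, rfl⟩ := h2'
    obtain ⟨rfl, rfl⟩ := h3'
    refine ⟨l' * l, m' * m, n' * n, mul_ne_zero hl' hl, mul_ne_zero hm' hm, mul_ne_zero hn' hn,
      ?_, ?_, ?_⟩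
    · simp only [Prod.mk.injEq]
      constructor <;> ring
    · simp only [Prod.mk.injEq]
      constructor <;> ring
    · simp only [Prod.mk.injEq]
      constructor <;> ring

/-- The equivalence relation `XCRel`. -/
def xcSetoid (a b : ℤ) (F : Type) [Field F] : Setoid (XC a b F) := ⟨XCRel a b, XCRel.equiv a b⟩

/-- The `F`-points of the smooth projective K3 surface `X`. -/
def XP (a b : ℤ) (F : Type) [Field F] : Type := Quotient (xcSetoid a b F)

/-- The topology of `XP a b F`: the quotient topology of the space of homogeneous coordinates. -/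
instance {a b : ℤ} {F : Type} [Field F] [TopologicalSpace F] : TopologicalSpace (XP a b F) :=
  inferInstanceAs (TopologicalSpace (Quotient (xcSetoid a b F)))

theorem F4_map (a b : ℤ) {K F : Type} [Field K] [Field F] (σ : K →+* F) (p : K × K) :
    F4 a b (σ p.1, σ p.2) = σ (F4 a b p) := by
  simp only [F4, map_sub, map_mul, map_intCast]

/-- Base change of homogeneous coordinates along a homomorphism of fields. -/
def XC.map {a b : ℤ} {K F : Type} [Field K] [Field F] (σ : K →+* F) (p : XC a b K) : XC a b F :=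
  ⟨((σ p.1.1.1, σ p.1.1.2), (σ p.1.2.1.1, σ p.1.2.1.2), (σ p.1.2.2.1, σ p.1.2.2.2)), by
    obtain ⟨p, h1, h2, h3, h4⟩ := p
    have key : ∀ q : K × K, q ≠ 0 → ((σ q.1, σ q.2) : F × F) ≠ 0 := by
      intro q hq h
      apply hq
      rw [Prod.mk_eq_zero] at h
      exact Prod.ext ((map_eq_zero σ).1 h.1) ((map_eq_zero σ).1 h.2)
    refine ⟨key _ h1, key _ h2, key _ h3, ?_⟩
    simp only [F4_map]
    rw [← map_pow, ← map_pow, ← map_mul, ← map_mul, h4]⟩

/-- Base change of points: the map `X(K) → X(F)` of a homomorphism `σ : K → F` of fields. -/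
def XP.map {a b : ℤ} {K F : Type} [Field K] [Field F] (σ : K →+* F) : XP a b K → XP a b F :=
  Quotient.map (sa := xcSetoid a b K) (sb := xcSetoid a b F) (XC.map σ) (by
    rintro ⟨⟨⟨x0, x1⟩, ⟨t0, t1⟩, ⟨u, v⟩⟩, hp⟩ ⟨⟨⟨x0', x1'⟩, ⟨t0', t1'⟩, ⟨u', v'⟩⟩, hq⟩
      ⟨l, m, n, hl, hm, hn, h1, h2, h3⟩
    simp only [Prod.mk.injEq] at h1 h2 h3
    obtain ⟨rfl, rfl⟩ := h1
    obtain ⟨rfl, rfl⟩ := h2
    obtain ⟨rfl, rfl⟩ := h3
    refine ⟨σ l, σ m, σ n, (map_ne_zero σ).2 hl, (map_ne_zero σ).2 hm, (map_ne_zero σ).2 hn,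
      ?_, ?_, ?_⟩ <;> simp [XC.map])

end Pool.Agent.WAR
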