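import Pool.Agent.WAR.Defs
import Pool.Agent.WAR.K3

/-!
The open part `XU F` (`y ≠ 0`) of the affine surface and its inclusion into the projective surface.
-/

namespace Pool.Agent.WAR

variable [Par]

/-- The `F`-points of the open surface `y ^ 2 = f(x) * f(t)`, `y ≠ 0`. -/
def XU (F : Type) [Field F] : Set (F × F × F) := {z | OnU z}

theorem cub_map {K F : Type} [Field K] [Field F] (σ : K →+* F) (x : K) :
    cub (σ x) = σ (cub x) := by
  simp only [cub, map_mul, map_sub, map_ea]
  simp

/-- base change of points -/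
def XU.map {K F : Type} [Field K] [Field F] (σ : K →+* F) (z : XU K) : XU F :=
  ⟨(σ z.1.1, σ z.1.2.1, σ z.1.2.2), by
    obtain ⟨z, h1, h2⟩ := z
    refine ⟨?_, ?_⟩
    · simp only [cub_map]
      rw [← map_pow, ← map_mul, h1]
    · intro h
      exact h2 ((map_eq_zero σ).1 h)⟩

/-- homogeneous coordinates of the points of the open part -/
def XU.coords {F : Type} [Field F] (z : XU F) : XC Par.a Par.b F :=
  ⟨((z.1.1, 1), (z.1.2.1, 1), (z.1.2.2, cub z.1.2.1)), by
    obtain ⟨⟨x, t, y⟩, h1, h2⟩ := z
    simp only at h1 h2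
    refine ⟨?_, ?_, ?_, ?_⟩
    · simp
    · simp
    · intro h
      exact h2 (congrArg Prod.fst h)
    · simp only [F4, cub, ea, eb] at h1 ⊢
      linear_combination (t * (t - (Par.a : F)) * (t - (Par.b : F))) * h1⟩

/-- the open part as a part of the projective surface -/
def XU.incl {F : Type} [Field F] (z : XU F) : XP Par.a Par.b F :=
  Quotient.mk (xcSetoid Par.a Par.b F) (XU.coords z)

theorem XU_incl_map {K F : Type} [Field K] [Field F] (σ : K →+* F) (z : XU K) :
    XP.map σ (XU.incl z) = XU.incl (XU.map σ z) := by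
  show Quotient.mk (xcSetoid Par.a Par.b F) (XC.map σ (XU.coords z)) =
    Quotient.mk (xcSetoid Par.a Par.b F) _
  congr 1
  apply Subtype.ext
  simp [XC.map, XU.coords, XU.map, cub_map]

end Pool.Agent.WAR
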