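import Pool.Agent.WAR.StmtsI
import Pool.Agent.WAR.XU

/-!
# Part B: the fields `Q_p` and `R`, approximation on the line, density for the open surface (helper95)
-/

set_option autoImplicit false

namespace Pool.Agent.WAR

open Classical

variable [Par]

/-- The primes of the theorem: odd, good reduction. -/
structure GoodP (p : ℕ) : Prop where
  prime : p.Prime
  odd : p ≠ 2
  gda : ¬ (p : ℤ) ∣ Par.a
  gdb : ¬ (p : ℤ) ∣ Par.b
  gdab : ¬ (p : ℤ) ∣ Par.a - Par.b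

omit [Par] in
theorem primesFact (p : Nat.Primes) : Fact (p : ℕ).Prime := ⟨p.2⟩

attribute [local instance] primesFact

/-- **BLO** (bridge): `Q_p` (Mathlib's `Padic`) is a local field in the sense of `IsLoc`. -/
def BloStmt : Prop :=
  ∀ (p : ℕ) [Fact p.Prime], GoodP p → IsLoc ℚ_[p] (p : ℤ)

/-- **BWA** (uses CRT): weak approximation in `Q` at finitely many primes and the real place. -/
def BwaStmt : Prop :=
  ∀ (ι : Type) (F : ι → Type) [∀ v, NormedField (F v)] (ϖ : ι → ℤ) (σ : ∀ v, ℚ →+* F v)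
    (σR : ℚ →+* ℝ) (S : Finset ι),
    (∀ v ∈ S, IsLoc (F v) (ϖ v)) → (∀ v ∈ S, ∀ w ∈ S, v ≠ w → ϖ v ≠ ϖ w) →
    ∀ (T : ∀ v, Set (F v)) (TR : Set ℝ), (∀ v ∈ S, IsOpen (T v) ∧ (T v).Nonempty) →
      IsOpen TR → TR.Nonempty → ∃ τ : ℚ, (∀ v ∈ S, σ v τ ∈ T v) ∧ σR τ ∈ TR

/-- **BFI** (uses BLO, BWA, FIN): the closure of the rational points of the open surface contains
all points of the product with `OmP` at the primes of `S`. -/
def BfiStmt : Prop :=
  ∀ S : Set Nat.Primes, (∀ p ∈ S, GoodP (p : ℕ)) →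
    ∀ (x : ∀ p : S, XU ℚ_[(p.1 : ℕ)]) (xR : XU ℝ), (∀ p : S, OmP (x p).1) →
      ((x, xR) : (∀ p : S, XU ℚ_[(p.1 : ℕ)]) × XU ℝ) ∈ closure (Set.range (fun z : XU ℚ =>
      (((fun p : S => XU.map (algebraMap ℚ ℚ_[(p.1 : ℕ)]) z), XU.map (algebraMap ℚ ℝ) z) :
        (∀ p : S, XU ℚ_[(p.1 : ℕ)]) × XU ℝ)))

end Pool.Agent.WAR
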