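import Pool.Agent.WAR.Exports

/-!
# WAR, part L: local nonarchimedean theory (internal rows)

Port of Pool/Agent/WAP/StmtsL.lean: the multipliers are the integers, the curve is
`W d : Y^2 = X (X - d a) (X - d b)`.  THE LOCAL PARAMETER IS SHIFTED: `zs P = (X - d (a+b)/3) / Y`
instead of `zc P = X / Y` (short Weierstrass form `Y^2 = X'^3 + A X' + B`, `X' = X - d (a+b)/3`,
`|A| ≤ |d|^2`, `|B| ≤ |d|^3`), then all estimates of WAP hold word for word with `zs` for `zc`.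
The rows with the mark (port of WAP row) are proved by copying the landed file
(column path of table wap): GaussianInt -> Z, `algebraMap GaussianInt F` -> `am F`, `zc` -> `zs`,
`open Pool.Agent.WAP` -> `Pool.Agent.WAR`, add `variable [Par]`; `sm a P = a • P` (`sm_def`).
M = Pt d, G = {P | Big 1 P} (kernel of reduction, |x| > 1 or origin), q = qn F ϖ = |ϖ| < 1.
-/

namespace Pool.Agent.WAR

open Classical WeierstrassCurve.Affine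

/-- the absolute value of an integer as a natural number -/
def nm (a : ℤ) : ℕ := a.natAbs

variable [Par]

/-- `(a + b) / 3` -/
noncomputable def cc (F : Type) [Field F] : F := (ea F + eb F) / 3

/-- the shifted parameter `(X - d (a + b) / 3) / Y` at the origin -/
noncomputable def zs {F : Type} [Field F] {d : F} (P : Pt d) : F := (cX P - d * cc F) / cY P

theorem zs_zero {F : Type} [Field F] {d : F} : zs (0 : Pt d) = 0 := by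
  show ((0 : F) - d * cc F) / 0 = 0
  simp

theorem zs_some {F : Type} [Field F] {d X Y : F} (h : (W d).Nonsingular X Y) :
    zs (Point.some X Y h : Pt d) = (X - d * cc F) / Y := rfl

/-- level `r` in the kernel of reduction -/
def Lev {F : Type} [NormedField F] {d : F} (r : ℝ) (P : Pt d) : Prop := Big 1 P ∧ ‖zs P‖ ≤ r

/-- the absolute value of the uniformizer -/
noncomputable def qn (F : Type) [NormedField F] (ϖ : ℤ) : ℝ := ‖am F ϖ‖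

/-! ## 1. The kernel of reduction -/

/-- CCN. `|(a+b)/3| ≤ 1`.  Proof.  ϖ = 3 divides a + b since a, b, a - b are prime to 3; otherwise 3 is
a unit. -/
def CcnStmt : Prop := ∀ (F : Type) [NormedField F] (ϖ : ℤ), IsLoc F ϖ →
  ‖cc F‖ ≤ 1 ∧ (3 : F) ≠ 0 ∧ ‖(3 : F)‖ ≤ 1

/-- ZEQ (uses CCN). -/
def ZeqStmt : Prop := ∀ (F : Type) [NormedField F] (ϖ : ℤ),
  IsLoc F ϖ → ∀ (d X Y : F), d ≠ 0 → (W d).Nonsingular X Y → ‖d‖ < ‖X‖ →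
    Y ≠ 0 ∧ ‖X‖ * ‖(X - d * cc F) / Y‖ ^ 2 = 1 ∧ ‖Y‖ * ‖(X - d * cc F) / Y‖ ^ 3 = 1 ∧
    ‖d‖ * ‖(X - d * cc F) / Y‖ ^ 2 ≤ qn F ϖ ∧ qn F ϖ < 1 ∧ ‖X - d * cc F‖ = ‖X‖

/-- ZAL (uses CCN, ZEQ). Addition in the kernel of reduction. -/
def ZalStmt : Prop := ∀ (F : Type) [NormedField F] (ϖ : ℤ),
  IsLoc F ϖ → ∀ (d : F), d ≠ 0 → ∀ P Q : Pt d, Big 1 P → Big 1 Q →
    Big 1 (P + Q) ∧ ‖zs (P + Q) - zs P - zs Q‖ ≤ ‖d‖ ^ 2 * (max ‖zs P‖ ‖zs Q‖) ^ 5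

/-- ZSL (port of WAP row ZSL; uses ZEQ, ZAL). Proof.  `zs (-P) = - zs P`.  For integers n: induction,
`|z(nP) - n z(P)| ≤ |d|^2 |z(P)|^5` (all `|z(nP)| ≤ |z(P)|` by the induction hypothesis and
`|d|^2 |z|^4 < 1`; ultrametric). -/
def ZslStmt : Prop := ∀ (F : Type) [NormedField F] (ϖ : ℤ),
  IsLoc F ϖ → ∀ (d : F), d ≠ 0 → ∀ (a : ℤ) (P : Pt d), Big 1 P →
    Big 1 (sm a P) ∧ ‖zs (sm a P) - am F a * zs P‖ ≤ ‖d‖ ^ 2 * ‖zs P‖ ^ 5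

/-- ZLV (port of WAP row ZLV; uses ZEQ, ZAL, ZSL). Levels. -/
def ZlvStmt : Prop := ∀ (F : Type) [NormedField F] (ϖ : ℤ),
  IsLoc F ϖ → ∀ (d : F), d ≠ 0 →
    (∀ (r : ℝ) (P Q : Pt d), Lev r P → Lev r Q → Lev r (P + Q) ∧ Lev r (-P) ∧ Lev r (P - Q)) ∧
    (∀ (r : ℝ) (a : ℤ) (P : Pt d), Lev r P → Lev r (sm a P)) ∧
    (∀ P : Pt d, Big 1 P → (zs P = 0 ↔ P = 0)) ∧
    (∀ (a : ℤ) (P : Pt d), Big 1 P → ¬ ϖ ∣ a → ‖zs (sm a P)‖ = ‖zs P‖) ∧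
    (∀ P : Pt d, Big 1 P → ‖zs (sm ϖ P)‖ = qn F ϖ * ‖zs P‖) ∧
    (∀ (k : ℕ) (a : ℤ) (P : Pt d), Big 1 P → ϖ ^ k ∣ a →
      ‖zs (sm a P)‖ ≤ qn F ϖ ^ k * ‖zs P‖) ∧
    (∀ r : ℝ, 0 < r → ∃ k : ℕ, ∀ (a : ℤ) (P : Pt d), Big 1 P → ϖ ^ k ∣ a →
      Lev r (sm a P)) ∧
    (∀ P : Pt d, P ≠ 0 → Big 1 P → ‖d‖ * ‖zs P‖ ^ 2 ≤ qn F ϖ)

/-- DGN (port of WAP row DGN; uses ZAL, ZSL, ZLV). Digits. -/
def DgnStmt : Prop := ∀ (F : Type) [NormedField F] (ϖ : ℤ),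
  IsLoc F ϖ → ∀ (d : F), d ≠ 0 → ∀ (E R : Pt d) (N0 : ℤ) (ρ : ℝ), Big 1 E → Big 1 R →
    ‖zs R‖ ≤ ‖zs E‖ → ¬ ϖ ∣ N0 → 0 < ρ → ∃ a : ℤ, N0 ∣ a ∧ Lev ρ (R - sm a E)

/-! ## 2. Reduction -/

/-- CRI (port of WAP row CRI). Criterion for congruence.  Proof.  If P = Q then P - Q = 0.  If P = -Q, then
X1 = X2, Y1 = -Y2, `P - Q = 2P` has `X(2P) = (X^2 - d^2 a b)^2/(4 Y^2)` (0 if Y = 0), big iff `|Y| < 1`, as
`X^2 - d^2 a b` is a unit if `X (X - d a)(X - d b)` is not.  If `X1 ≠ X2`: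
`X(P - Q) = ((Y1 + Y2)/(X1 - X2))^2 + d (a + b) - X1 - X2`, so it is big iff `|Y1 + Y2| > |X1 - X2|`.
`(Y1 - Y2)(Y1 + Y2) = (X1 - X2) N`, `N = X1^2 + X1 X2 + X2^2 - d (a + b)(X1 + X2) + d^2 a b`.  (⇐) If `|Y1| = 1`:
`|Y1 + Y2| = |2 Y1| = 1 > |X1 - X2|`.  If `|Y1|, |Y2| < 1`: N is a unit (mod ϖ: the derivative of the cubic at
a root), so `|X1 - X2| = |Y1 - Y2| |Y1 + Y2| < |Y1 + Y2|` (Y1 + Y2 ≠ 0, else X1 = X2).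
(⇒) `|X1 - X2| < |Y1 + Y2| ≤ 1`; if `|Y1 - Y2| = 1` then `|Y1 + Y2| = |X1 - X2| |N| ≤ |X1 - X2|`, a
contradiction. -/
def CriStmt : Prop := ∀ (F : Type) [NormedField F] (ϖ : ℤ),
  IsLoc F ϖ → ∀ (d : F), ‖d‖ = 1 →
    ∀ (X1 Y1 X2 Y2 : F) (h1 : (W d).Nonsingular X1 Y1) (h2 : (W d).Nonsingular X2 Y2),
    ‖X1‖ ≤ 1 → ‖X2‖ ≤ 1 →
    (Big 1 ((Point.some X1 Y1 h1 : Pt d) - Point.some X2 Y2 h2) ↔ ‖X1 - X2‖ < 1 ∧ ‖Y1 - Y2‖ < 1)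

/-- CNT (port of WAP row CNT; uses ZLV, CRI). Counting. -/
def CntStmt : Prop := ∀ (F : Type) [NormedField F] (ϖ : ℤ),
  IsLoc F ϖ → ∀ (d : F), ‖d‖ = 1 → ∀ A : Finset (Pt d),
    (∀ P ∈ A, ∀ Q ∈ A, P ≠ Q → ¬ Big 1 (P - Q)) → A.card ≤ 2 * nm ϖ + 1

/-- RAM (port of WAP row RAM). Ramified twists.  Proof.  Let P = (X,Y), `|X| ≤ |d|`, ξ = X/d.
`Y^2 = d^3 ξ(ξ-a)(ξ-b)`; if Y = 0 then P is one of the three points.  If `|ξ(ξ-a)(ξ-b)| = 1` then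
`|Y|^2 = |d|^3 = q^3`, impossible in the value group.  So exactly one of ξ, ξ-a, ξ-b is small.  ξ small,
P ≠ T0: normalized x(P + T0) = a b/ξ, big.  ξ near a: x(P + T_a) = a (ξ - b)/(ξ - a), big; ξ near b the same
(`tor_add` facts in Alg.lean). -/
def RamStmt : Prop := ∀ (F : Type) [NormedField F] (ϖ : ℤ),
  IsLoc F ϖ → ∀ (d : F), ‖d‖ = qn F ϖ → ∀ P : Pt d, ∃ T : Pt d, IsT T ∧ Big 1 (P - T)

/-- T2G (uses CRI). Unramified twists: a point whose double is in G is near a 2-torsion point.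
Proof.  P in G: T = 0.  Otherwise |X| ≤ 1, |Y| ≤ 1.  Y = 0: P is a 2-torsion point.  Y ≠ 0:
X(2P) = (X^2 - d^2 a b)^2/(4 Y^2) is big, so |Y| < 1, so X (X - d a)(X - d b) is small, X is near d e for
a root e, and CRI for (X, Y), (d e, 0). -/
def T2gStmt : Prop := ∀ (F : Type) [NormedField F] (ϖ : ℤ),
  IsLoc F ϖ → ∀ (d : F), ‖d‖ = 1 → ∀ P : Pt d, Big 1 (sm 2 P) → ∃ T : Pt d, IsT T ∧ Big 1 (P - T)

/-- RED (uses CRI). The reduction homomorphism.  Proof.  ρ : {|x| ≤ 1} → ZMod p, x ↦ a mod p for an integer a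
with |x - a| < 1 (`IsLoc.res`, `IsLoc.lt_one`), is a ring homomorphism; δ = ρ(d).  φ(P) = 0 for P in G, otherwise
φ(X,Y) = (ρ X, ρ Y).  Additivity: (0) φ(-P) = -φ(P).  (1) P in G, Q not: (P + Q) - Q = P in G, so by CRI
(P + Q is not in G) φ(P + Q) = φ(Q).  (2) P, Q not in G, P + Q in G: φ(P) = φ(-Q) by CRI.  (3) P, Q, P + Q not
in G: let l be the slope; if |X1 - X2| = 1 the formula reduces; if |X1 - X2| < 1 then φ(P) = φ(Q)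
(otherwise φ(P) = -φ(Q), CRI) and Y is a unit (otherwise φ(P) = φ(-P) = φ(-Q) and P + Q in G);
(Y1 + Y2) l = X1^2 + X1 X2 + X2^2 - d (a + b)(X1 + X2) + d^2 a b also for P ≠ Q (and the tangent for P = Q), Y1 + Y2 is
a unit, and the formula reduces to the tangent. -/
def RedStmt : Prop := ∀ (F : Type) [NormedField F] (ϖ : ℤ),
  IsLoc F ϖ → ∀ (d : F), ‖d‖ = 1 → ∃ (_ : Fact ϖ.natAbs.Prime) (δ : ZMod ϖ.natAbs)
    (φ : Pt d → (W δ).Point), δ ≠ 0 ∧ (∀ P Q : Pt d, φ (P + Q) = φ P + φ Q) ∧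
      ∀ P : Pt d, φ P = 0 ↔ Big 1 P

/-- MCY (uses RED, T2G, RAM). M/G is cyclic modulo the 2-torsion.  Proof.  ‖d‖ = q: g = 0, RAM.  ‖d‖ = 1: RED and
`IsLoc.cyc` give g' with: for every P some k with 2 (φ P - k g') = 0.  The integers k which occur for some P
form a subgroup of ℤ, = (k0), k0 occurs for g: 2 (φ g - k0 g') = 0.  For P: k = a k0,
2 φ(P - a g) = 0, so 2 (P - a g) in G; T2G. -/
def McyStmt : Prop := ∀ (F : Type) [NormedField F]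
  (ϖ : ℤ), IsLoc F ϖ → Cyc ϖ.natAbs → ∀ (d : F), (‖d‖ = 1 ∨ ‖d‖ = qn F ϖ) →
    ∃ g : Pt d, ∀ P : Pt d, ∃ (a : ℤ) (T : Pt d), IsT T ∧ Big 1 (P - sm a g - T)

/-! ## 3. The local module -/

/-- PT2 (port of WAP row PT2; uses ZLV, CNT, RAM). No torsion for large primes.  Proof.  ‖d‖ = q: 2P is in G
(RAM; 2T = 0), l P in G, and 1 = 2u + l v.  ‖d‖ = 1: suppose P is not in G.  The elements e + aP, e in the
four 2-torsion points, 0 ≤ a < |l|, are pairwise incongruent mod G: if (e - e') + bP in G, then 2bP in G and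
lP in G, so P in G if l does not divide b; if b = 0 then e - e' is a 2-torsion point in G, so 0.  CNT:
4 |l| ≤ 2 |ϖ| + 1, a contradiction. -/
def Pt2Stmt : Prop := ∀ (F : Type) [NormedField F] (ϖ : ℤ),
  IsLoc F ϖ → ∀ (d : F), (‖d‖ = 1 ∨ ‖d‖ = qn F ϖ) → ∀ l : ℤ, Prime l →
    ¬ l ∣ 2 → nm ϖ ≤ nm l → ∀ P : Pt d, Big 1 (sm l P) → Big 1 P

/-- KIL (port of WAP row KIL; uses ZLV, CNT, RAM, PT2). -/
def KilStmt : Prop := ∀ (F : Type) [NormedField F] (ϖ : ℤ),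
  IsLoc F ϖ → ∀ (d : F), (‖d‖ = 1 ∨ ‖d‖ = qn F ϖ) → ∀ l : ℤ, Prime l →
    ¬ l ∣ 2 → ¬ Associated ϖ l → nm ϖ ≤ nm l → ∀ (P : Pt d) (ρ : ℝ), 0 < ρ →
    ∃ c : ℤ, ¬ l ∣ c ∧ ∀ n : ℤ, c ∣ n → Lev ρ (sm n P)

/-- MCK (as the row MCK of WAQ with a given `g0`; uses ZLV, DGN, CNT, RAM, PT2). -/
def MckStmt : Prop := ∀ (F : Type) [NormedField F]
  (ϖ : ℤ), IsLoc F ϖ → ∀ (d : F), (‖d‖ = 1 ∨ ‖d‖ = qn F ϖ) →
    ∀ (g0 : Pt d) (ρ : ℝ), 0 < ρ → ∃ g : Pt d, ∀ P : Pt d,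
      (∃ (a : ℤ) (T : Pt d), IsT T ∧ Big 1 (P - sm a g0 - T)) →
      ∃ (a : ℤ) (T : Pt d), IsT T ∧ Lev ρ (P - sm a g - T)

/-- UNI (uses ZLV, MCK, ITS).  PROOF.  `CycPr P Q`: coprime `c0, e0`, `T0`; complete to a matrix
`(a0, b0; c0, e0)` of determinant 1, `P0 = a0 P + b0 Q`, `Q0 = c0 P + e0 Q`.  MCK for `g0 = P0`: `g`;
`P0 = 1 g0 + 0`, `Q0 - 0 g0 - T0` in `Big 1`.  So `P0 - p g - T1`, `Q0 - r g - T2` in `Lev ρ`, and as in the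
row UNI of WAQ a matrix `(a1, b1; c1, e1)` with `c1 P0 + e1 Q0 - T` in `Lev ρ`; multiply the matrices. -/
def UniStmt : Prop := ∀ (F : Type) [NormedField F]
  (ϖ : ℤ), IsLoc F ϖ → ∀ (d : F), (‖d‖ = 1 ∨ ‖d‖ = qn F ϖ) →
    ∀ (P Q : Pt d) (ρ : ℝ), 0 < ρ → CycPr P Q →
      ∃ (a b c e : ℤ) (T : Pt d), a * e - b * c = 1 ∧ IsT T ∧
      Lev ρ (sm c P + sm e Q - T)

/-- NRM (port of WAP row NRM). Normalized frame. -/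
def NrmStmt : Prop := ∀ (F : Type) [NormedField F] (ϖ : ℤ),
  IsLoc F ϖ → ∀ z : F × F × F, OnU z → ∃ (d : F) (P Q : Pt d), (‖d‖ = 1 ∨ ‖d‖ = qn F ϖ) ∧
    z = kum d P Q

/-- LVB (port of WAP row LVB; uses ZEQ). Levels and `Big`. -/
def LvbStmt : Prop := ∀ (F : Type) [NormedField F] (ϖ : ℤ),
  IsLoc F ϖ → ∀ (d : F), d ≠ 0 →
    (∀ N : ℝ, ∃ ρ : ℝ, 0 < ρ ∧ ∀ P : Pt d, Lev ρ P → Big N P) ∧
    (∀ ρ : ℝ, 0 < ρ → ∃ N : ℝ, ∀ P : Pt d, Big N P → Lev ρ P)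

/-- MZZ (port of WAP row MZZ; uses CCN, ZEQ). The slope coordinate.  Proof.  (1) `mz (kum d P Q) =
(cX Q/cY Q)/(cX P/cY P)` (mz_kum of Alg.lean), and for P, Q in G: `zs P = (cX P/cY P)(1 - cc/x)`, `x = cX P/d`,
`|cc/x| < 1`.  So `mz = (zs Q/zs P) (1 - cc/x)/(1 - cc/t)`: the same norm, and
`|mz - zs Q/zs P| = |mz| |1 - (1 - cc/t)/(1 - cc/x)| ≤ |mz| max(1/|x|, 1/|t|)`, `1/|x| = |d| |zs P|^2`.
(2), (3) ZEQ.  (4) P, Q in G nonzero: `cX, cY ≠ 0`, the equation of U follows from the equations of the curve. -/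
def MzzStmt : Prop := ∀ (F : Type) [NormedField F] (ϖ : ℤ),
  IsLoc F ϖ → ∀ (d : F), d ≠ 0 → ∀ P Q : Pt d,
    (OnU (kum d P Q) → P ≠ 0 ∧ Q ≠ 0) ∧
    (P ≠ 0 → Big 1 P → Q ≠ 0 → Big 1 Q → zs P ≠ 0 ∧ zs Q ≠ 0 ∧ OnU (kum d P Q) ∧
      ‖mz (kum d P Q)‖ = ‖zs Q / zs P‖ ∧
      ‖mz (kum d P Q) - zs Q / zs P‖ ≤ ‖zs Q / zs P‖ * (‖d‖ * (max ‖zs P‖ ‖zs Q‖) ^ 2)) ∧
    (P ≠ 0 → Big 1 P → ‖(kum d P Q).1‖ * (‖d‖ * ‖zs P‖ ^ 2) = 1) ∧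
    (Q ≠ 0 → Big 1 Q → ‖(kum d P Q).2.1‖ * (‖d‖ * ‖zs Q‖ ^ 2) = 1)

/-- LIN (port of WAP row LIN; uses ZEQ, ZAL, ZSL). -/
def LinStmt : Prop := ∀ (F : Type) [NormedField F] (ϖ : ℤ),
  IsLoc F ϖ → ∀ (d : F), d ≠ 0 → ∀ (a b : ℤ) (P Q : Pt d), Big 1 P → Big 1 Q →
    ‖zs Q‖ ≤ ‖zs P‖ → Big 1 (sm a P + sm b Q) ∧
      ‖zs (sm a P + sm b Q) - (am F a * zs P + am F b * zs Q)‖ ≤ ‖d‖ ^ 2 * ‖zs P‖ ^ 5

/-- ITS. `IsT` is the 2-torsion subgroup.  Proof.  Alg.lean (tor_add_self, add_tor0/1/m; T0 + Ta = Tb by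
the addition formula) and `2 T = 0`, so `sm n T` is 0 or T. -/
def ItsStmt : Prop := ∀ (F : Type) [NormedField F] (ϖ : ℤ), IsLoc F ϖ → ∀ (d : F), d ≠ 0 →
  (∀ T : Pt d, IsT T → T + T = 0 ∧ -T = T) ∧
  (∀ T T' : Pt d, IsT T → IsT T' → IsT (T + T')) ∧
  (∀ (n : ℤ) (T : Pt d), IsT T → IsT (sm n T)) ∧
  (∀ T : Pt d, IsT T → Big 1 T → T = 0)

end Pool.Agent.WAR
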